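import Mathlib

/-!
# A verified search for addition chains

Bit `x` of `M` says that `x` is in the chain, bit `x` of `S` that `x` is a sum of two members,
bit `x` of `R` that `n - x` is in the chain.
-/

set_option autoImplicit false

namespace Pool.Agent.H765R3.ChainSearch

/-- all set bits `e` of `T` satisfy `f e` (with fuel) -/
def loop (f : ℕ → Bool) : ℕ → ℕ → Bool
  | 0, T => Nat.beq T 0
  | k + 1, T => cond (Nat.beq T 0) true
      (cond (f (Nat.log2 T)) (loop f k (T % 2 ^ Nat.log2 T)) false)

/-- lower end of the range for the next element, when `k + 2` more may follow it -/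
def lo (n k m : ℕ) : ℕ := max (m + 1) ((n + 3 * 2 ^ k - 1) / (3 * 2 ^ k))

/-- `true` if the chain cannot be completed with `k + 2` further elements to reach `n` -/
def search (n : ℕ) : ℕ → ℕ → ℕ → ℕ → ℕ → Bool
  | 0, _, S, R, _ => cond (Nat.testBit S n) false (Nat.beq (S &&& R) 0)
  | k + 1, M, S, R, m =>
      cond (Nat.testBit S n) false
        (loop (fun e => search n k (M ||| 2 ^ (e + lo n k m))
            (S ||| ((M ||| 2 ^ (e + lo n k m)) <<< (e + lo n k m)))
            (R ||| 2 ^ (n - (e + lo n k m))) (e + lo n k m))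
          100 ((S >>> lo n k m) % 2 ^ (n - lo n k m)))

theorem beq_zero {a : ℕ} (h : Nat.beq a 0 = true) : a = 0 := Nat.eq_of_beq_eq_true h

theorem loop_sound (f : ℕ → Bool) : ∀ (k T : ℕ), loop f k T = true →
    ∀ e, Nat.testBit T e = true → f e = true := by
  intro k
  induction k with
  | zero =>
    intro T h e he
    have h0 := beq_zero (by simpa [loop] using h)
    subst h0
    simp at he
  | succ k ih =>
    intro T h e he
    rcases hb : Nat.beq T 0 with _ | _
    · have hT : T ≠ 0 := by
        rintro rfl
        simp at hb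
      simp only [loop, hb, cond_false] at h
      rcases hf : f (Nat.log2 T) with _ | _
      · rw [hf] at h; simp at h
      · rw [hf, cond_true] at h
        rcases lt_trichotomy e (Nat.log2 T) with hlt | heq | hgt
        · apply ih _ h e
          rw [Nat.testBit_mod_two_pow]
          simp [hlt, he]
        · rw [heq, hf]
        · exfalso
          have h1 : T < 2 ^ e := by
            calc T < 2 ^ (Nat.log2 T + 1) := by
                  rw [Nat.log2_eq_log_two]
                  exact Nat.lt_pow_succ_log_self (by norm_num) T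
              _ ≤ 2 ^ e := Nat.pow_le_pow_right (by norm_num) hgt
          rw [Nat.testBit_lt_two_pow h1] at he
          exact Bool.noConfusion he
    · have h0 := beq_zero hb
      subst h0
      simp at he

variable {n : ℕ} {T : Finset ℕ}

/-- the elements of `T` in `(m, x]` -/
def seg (T : Finset ℕ) (m x : ℕ) : Finset ℕ := T.filter (fun t => m < t ∧ t ≤ x)

theorem seg_succ_le {m x y : ℕ} (hx : x ∈ T) (hmx : m < x) (hyx : y < x) :
    (seg T m y).card + 1 ≤ (seg T m x).card := by
  have : insert x (seg T m y) ⊆ seg T m x := by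
    intro t ht
    simp only [seg, Finset.mem_insert, Finset.mem_filter] at ht ⊢
    rcases ht with rfl | ⟨h1, h2, h3⟩
    · exact ⟨hx, hmx, le_refl _⟩
    · exact ⟨h1, h2, by omega⟩
  have hnot : x ∉ seg T m y := by
    simp only [seg, Finset.mem_filter, not_and]
    intro _ _
    omega
  calc (seg T m y).card + 1 = (insert x (seg T m y)).card := by
        rw [Finset.card_insert_of_notMem hnot]
    _ ≤ _ := Finset.card_le_card this

theorem growth (hpos : ∀ x ∈ T, 1 ≤ x)
    (hsum : ∀ x ∈ T, x ≠ 1 → ∃ y ∈ T, ∃ z ∈ T, x = y + z) (m : ℕ) (hm : 1 ≤ m) :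
    ∀ x ∈ T, m < x → x ≤ m * 2 ^ (seg T m x).card := by
  intro x
  induction x using Nat.strong_induction_on with
  | _ x ih =>
    intro hx hmx
    obtain ⟨y, hy, z, hz, hxyz⟩ := hsum x hx (by omega)
    have hy1 := hpos y hy
    have hz1 := hpos z hz
    have key : ∀ w ∈ T, w < x → 2 * w ≤ m * 2 ^ (seg T m x).card := by
      intro w hw hwx
      have h1 := seg_succ_le (T := T) hx hmx hwx
      by_cases hmw : m < w
      · have h2 := ih w hwx hw hmw
        calc 2 * w ≤ 2 * (m * 2 ^ (seg T m w).card) := by omega
          _ = m * 2 ^ ((seg T m w).card + 1) := by ring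
          _ ≤ m * 2 ^ (seg T m x).card :=
            Nat.mul_le_mul_left _ (Nat.pow_le_pow_right (by norm_num) h1)
      · calc 2 * w ≤ m * 2 ^ 1 := by omega
          _ ≤ m * 2 ^ (seg T m x).card :=
            Nat.mul_le_mul_left _ (Nat.pow_le_pow_right (by norm_num) (by omega))
    have h1 := key y hy (by omega)
    have h2 := key z hz (by omega)
    omega

theorem odd_bound (hpos : ∀ x ∈ T, 1 ≤ x)
    (hsum : ∀ x ∈ T, x ≠ 1 → ∃ y ∈ T, ∃ z ∈ T, x = y + z) (hn : n ∈ T) (hodd : n % 2 = 1)
    (m : ℕ) (hm : 1 ≤ m) (hmn : m < n) (k : ℕ) (hk : (seg T m n).card ≤ k + 2) :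
    n ≤ m * (3 * 2 ^ k) := by
  obtain ⟨y, hy, z, hz, hxyz⟩ := hsum n hn (by omega)
  have main : ∀ y ∈ T, ∀ z ∈ T, n = y + z → z < y → n ≤ m * (3 * 2 ^ k) := by
    intro y hy z hz hxyz hlt
    have hy1 := hpos y hy
    have hz1 := hpos z hz
    by_cases hmy : m < y
    · have h1 := growth hpos hsum m hm y hy hmy
      have h2 := seg_succ_le (T := T) hn hmn (show y < n by omega)
      have hY : y ≤ m * 2 ^ (k + 1) :=
        h1.trans (Nat.mul_le_mul_left _ (Nat.pow_le_pow_right (by norm_num) (by omega)))
      have hZ : z ≤ m * 2 ^ k := by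
        by_cases hmz : m < z
        · have h3 := growth hpos hsum m hm z hz hmz
          have h4 := seg_succ_le (T := T) hy hmy hlt
          exact h3.trans (Nat.mul_le_mul_left _ (Nat.pow_le_pow_right (by norm_num) (by omega)))
        · have : 1 ≤ 2 ^ k := Nat.one_le_two_pow
          nlinarith
      calc n = y + z := hxyz
        _ ≤ m * 2 ^ (k + 1) + m * 2 ^ k := by omega
        _ = m * (3 * 2 ^ k) := by ring
    · have : 1 ≤ 2 ^ k := Nat.one_le_two_pow
      nlinarith
  rcases lt_trichotomy z y with h | h | h
  · exact main y hy z hz hxyz h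
  · omega
  · exact main z hz y hy (by omega) h

theorem search_sound (hpos : ∀ x ∈ T, 1 ≤ x) (hle : ∀ x ∈ T, x ≤ n)
    (hsum : ∀ x ∈ T, x ≠ 1 → ∃ y ∈ T, ∃ z ∈ T, x = y + z) (hn : n ∈ T) (hodd : n % 2 = 1) :
    ∀ (k M S R m : ℕ), 1 ≤ m → m < n →
      (∀ x, Nat.testBit M x = true ↔ (x ∈ T ∧ x ≤ m)) →
      (∀ x, Nat.testBit S x = true ↔ ∃ a ∈ T, ∃ b ∈ T, a ≤ m ∧ b ≤ m ∧ x = a + b) →
      (∀ x, Nat.testBit R x = true ↔ ∃ a ∈ T, a ≤ m ∧ x + a = n) →
      (seg T m n).card ≤ k + 2 →
      search n k M S R m = true → False := by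
  intro k
  induction k with
  | zero =>
    intro M S R m hm hmn hM hS hR hcard hsearch
    rcases hb : Nat.testBit S n with _ | _
    swap
    · simp [search, hb] at hsearch
    simp only [search, hb, cond_false] at hsearch
    have h0 := beq_zero hsearch
    -- the two elements above m
    obtain ⟨y, hy, z, hz, hxyz⟩ := hsum n hn (by omega)
    have main : ∀ y ∈ T, ∀ z ∈ T, n = y + z → z < y → False := by
      intro y hy z hz hxyz hlt
      have hz1 := hpos z hz
      by_cases hmy : m < y
      · have h2 := seg_succ_le (T := T) hn hmn (show y < n by omega)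
        -- y is a sum of small elements
        obtain ⟨a, ha, b, hb', hab⟩ := hsum y hy (by omega)
        have ha1 := hpos a ha
        have hb1 := hpos b hb'
        have small : ∀ w ∈ T, w < y → w ≤ m := by
          intro w hw hwy
          by_contra hcon
          have h3 := seg_succ_le (T := T) hy hmy hwy
          have h4 : 1 ≤ (seg T m w).card := by
            apply Finset.card_pos.mpr
            exact ⟨w, by simp only [seg, Finset.mem_filter]; exact ⟨hw, by omega, le_refl _⟩⟩
          omega
        have hSy : Nat.testBit S y = true :=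
          (hS y).2 ⟨a, ha, b, hb', small a ha (by omega), small b hb' (by omega), hab⟩
        have hRy : Nat.testBit R y = true :=
          (hR y).2 ⟨z, hz, small z hz hlt, by omega⟩
        have : Nat.testBit (S &&& R) y = true := by
          rw [Nat.testBit_and, hSy, hRy]; rfl
        rw [h0] at this
        simp at this
      · have : Nat.testBit S n = true :=
          (hS n).2 ⟨y, hy, z, hz, by omega, by omega, hxyz⟩
        rw [this] at hb
        exact Bool.noConfusion hb
    rcases lt_trichotomy z y with h | h | h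
    · exact main y hy z hz hxyz h
    · omega
    · exact main z hz y hy (by omega) h
  | succ k ih =>
    intro M S R m hm hmn hM hS hR hcard hsearch
    rcases hb : Nat.testBit S n with _ | _
    swap
    · simp [search, hb] at hsearch
    simp only [search, hb, cond_false] at hsearch
    -- the next element
    have hne : (seg T m n).Nonempty :=
      ⟨n, by simp only [seg, Finset.mem_filter]; exact ⟨hn, hmn, le_refl _⟩⟩
    obtain ⟨e, he, hmin⟩ : ∃ e ∈ seg T m n, ∀ w ∈ seg T m n, e ≤ w :=
      ⟨(seg T m n).min' hne, Finset.min'_mem _ _, fun w hw => Finset.min'_le _ _ hw⟩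
    simp only [seg, Finset.mem_filter] at he
    obtain ⟨heT, hme, hen⟩ := he
    have small : ∀ w ∈ T, w < e → w ≤ m := by
      intro w hw hwe
      by_contra hcon
      have := hmin w (by
        simp only [seg, Finset.mem_filter]; exact ⟨hw, by omega, hle w hw⟩)
      omega
    obtain ⟨a, ha, b, hb', hab⟩ := hsum e heT (by omega)
    have ha1 := hpos a ha
    have hb1 := hpos b hb'
    have hSe : Nat.testBit S e = true :=
      (hS e).2 ⟨a, ha, b, hb', small a ha (by omega), small b hb' (by omega), hab⟩
    have hen' : e < n := by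
      rcases Nat.lt_or_eq_of_le hen with h | h
      · exact h
      · rw [h, hb] at hSe
        exact Bool.noConfusion hSe
    have hcard' : (seg T e n).card ≤ k + 2 := by
      have hsub : insert e (seg T e n) ⊆ seg T m n := by
        intro t ht
        simp only [seg, Finset.mem_insert, Finset.mem_filter] at ht ⊢
        rcases ht with rfl | ⟨h1, h2, h3⟩
        · exact ⟨heT, hme, hen⟩
        · exact ⟨h1, by omega, h3⟩
      have hnot : e ∉ seg T e n := by
        simp only [seg, Finset.mem_filter, not_and]
        intro _ h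
        omega
      have := Finset.card_le_card hsub
      rw [Finset.card_insert_of_notMem hnot] at this
      omega
    have hbound := odd_bound hpos hsum hn hodd e (by omega) hen' k hcard'
    have hlo : lo n k m ≤ e := by
      unfold lo
      apply max_le
      · omega
      · have hp : 0 < 3 * 2 ^ k := by positivity
        rw [← Nat.lt_succ_iff, Nat.div_lt_iff_lt_mul hp]
        have : (e + 1) * (3 * 2 ^ k) = e * (3 * 2 ^ k) + 3 * 2 ^ k := by ring
        rw [Nat.succ_eq_add_one, this]
        omega
    set L := lo n k m with hL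
    have hloop := loop_sound _ _ _ hsearch (e - L) (by
      rw [Nat.testBit_mod_two_pow, Nat.testBit_shiftRight]
      have h1 : L + (e - L) = e := by omega
      rw [h1, hSe]
      simp only [Bool.and_true, decide_eq_true_eq]
      omega)
    have h1 : e - L + L = e := by omega
    simp only [h1] at hloop
    refine ih _ _ _ e (by omega) hen' ?_ ?_ ?_ hcard' hloop
    · intro x
      rw [Nat.testBit_or, Bool.or_eq_true, hM, Nat.testBit_two_pow, decide_eq_true_eq]
      constructor
      · rintro (⟨h2, h3⟩ | h2)
        · exact ⟨h2, by omega⟩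
        · subst h2; exact ⟨heT, le_refl _⟩
      · rintro ⟨h2, h3⟩
        rcases Nat.lt_or_eq_of_le h3 with h4 | h4
        · exact Or.inl ⟨h2, small x h2 h4⟩
        · exact Or.inr h4.symm
    · intro x
      rw [Nat.testBit_or, Bool.or_eq_true, hS, Nat.testBit_shiftLeft, Bool.and_eq_true,
        Nat.testBit_or, Bool.or_eq_true, hM, Nat.testBit_two_pow, decide_eq_true_eq,
        decide_eq_true_eq]
      constructor
      · rintro (⟨a, ha, b, hb', h2, h3, h4⟩ | ⟨h2, h3⟩)
        · exact ⟨a, ha, b, hb', by omega, by omega, h4⟩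
        · rcases h3 with ⟨h4, h5⟩ | h4
          · exact ⟨e, heT, x - e, h4, le_refl _, by omega, by omega⟩
          · exact ⟨e, heT, e, heT, le_refl _, le_refl _, by omega⟩
      · rintro ⟨a, ha, b, hb', h2, h3, h4⟩
        by_cases hae : a = e
        · right
          refine ⟨by omega, ?_⟩
          have : x - e = b := by omega
          rw [this]
          by_cases hbe : b = e
          · exact Or.inr hbe.symm
          · exact Or.inl ⟨hb', small b hb' (by omega)⟩
        · by_cases hbe : b = e
          · right
            refine ⟨by omega, Or.inl ?_⟩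
            have : x - e = a := by omega
            rw [this]
            exact ⟨ha, small a ha (by omega)⟩
          · left
            exact ⟨a, ha, b, hb', small a ha (by omega), small b hb' (by omega), h4⟩
    · intro x
      rw [Nat.testBit_or, Bool.or_eq_true, hR, Nat.testBit_two_pow, decide_eq_true_eq]
      constructor
      · rintro (⟨a, ha, h2, h3⟩ | h2)
        · exact ⟨a, ha, by omega, h3⟩
        · exact ⟨e, heT, le_refl _, by omega⟩
      · rintro ⟨a, ha, h2, h3⟩
        by_cases hae : a = e
        · right; omega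
        · left; exact ⟨a, ha, small a ha (by omega), h3⟩

theorem search789 : search 789 10 2 4 (2 ^ 788) 1 = true := by decide +kernel

/-- every addition chain for `789` has length at least `13` -/
theorem chain789 (r : ℕ) (c : ℕ → ℕ) (h0 : c 0 = 1)
    (hc : ∀ k, 1 ≤ k → k ≤ r → ∃ i j, i < k ∧ j < k ∧ c k = c i + c j)
    (hr : c r = 789) : 12 < r := by
  by_contra hcon
  have hpos : ∀ k, k ≤ r → 1 ≤ c k := by
    intro k
    induction k using Nat.strong_induction_on with
    | _ k ih =>
      intro hk
      rcases Nat.eq_zero_or_pos k with rfl | hk0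
      · omega
      · obtain ⟨i, j, hi, hj, hij⟩ := hc k hk0 hk
        have := ih i hi (by omega)
        omega
  let T : Finset ℕ := ((Finset.range (r + 1)).image c).filter (· ≤ 789)
  have hT : ∀ x, x ∈ T ↔ (∃ k, k ≤ r ∧ c k = x) ∧ x ≤ 789 := by
    intro x
    simp only [T, Finset.mem_filter, Finset.mem_image, Finset.mem_range, Nat.lt_succ_iff]
  have h1T : (1 : ℕ) ∈ T := (hT 1).2 ⟨⟨0, Nat.zero_le _, h0⟩, by norm_num⟩
  have hnT : (789 : ℕ) ∈ T := (hT 789).2 ⟨⟨r, le_refl _, hr⟩, le_refl _⟩
  have hTpos : ∀ x ∈ T, 1 ≤ x := by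
    intro x hx
    obtain ⟨⟨k, hk, rfl⟩, _⟩ := (hT x).1 hx
    exact hpos k hk
  have hTsum : ∀ x ∈ T, x ≠ 1 → ∃ y ∈ T, ∃ z ∈ T, x = y + z := by
    intro x hx hx1
    obtain ⟨⟨k, hk, rfl⟩, hle⟩ := (hT x).1 hx
    have hk0 : 1 ≤ k := by
      rcases Nat.eq_zero_or_pos k with rfl | h
      · exact absurd h0 hx1
      · exact h
    obtain ⟨i, j, hi, hj, hij⟩ := hc k hk0 hk
    exact ⟨c i, (hT _).2 ⟨⟨i, by omega, rfl⟩, by omega⟩, c j,
      (hT _).2 ⟨⟨j, by omega, rfl⟩, by omega⟩, hij⟩
  have hcard : T.card ≤ 13 := by
    calc T.card ≤ ((Finset.range (r + 1)).image c).card := Finset.card_filter_le _ _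
      _ ≤ (Finset.range (r + 1)).card := Finset.card_image_le
      _ ≤ 13 := by rw [Finset.card_range]; omega
  have hone : ∀ x ∈ T, x ≤ 1 → x = 1 := fun x hx h => by have := hTpos x hx; omega
  refine search_sound (n := 789) (T := T) hTpos (fun x hx => ((hT x).1 hx).2) hTsum hnT
    (by norm_num) 10 2 4 (2 ^ 788) 1 (le_refl _) (by norm_num) ?_ ?_ ?_ ?_ search789
  · intro x
    rw [show (2 : ℕ) = 2 ^ 1 by norm_num, Nat.testBit_two_pow, decide_eq_true_eq]
    constructor
    · rintro rfl; exact ⟨h1T, le_refl _⟩
    · rintro ⟨h2, h3⟩; exact (hone x h2 h3).symm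
  · intro x
    rw [show (4 : ℕ) = 2 ^ 2 by norm_num, Nat.testBit_two_pow, decide_eq_true_eq]
    constructor
    · rintro rfl; exact ⟨1, h1T, 1, h1T, le_refl _, le_refl _, rfl⟩
    · rintro ⟨a, ha, b, hb, h2, h3, h4⟩
      rw [hone a ha h2, hone b hb h3] at h4
      omega
  · intro x
    rw [Nat.testBit_two_pow, decide_eq_true_eq]
    constructor
    · rintro rfl; exact ⟨1, h1T, le_refl _, rfl⟩
    · rintro ⟨a, ha, h2, h3⟩
      rw [hone a ha h2] at h3
      omega
  · have hsub : insert 1 (seg T 1 789) ⊆ T := by
      intro t ht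
      simp only [seg, Finset.mem_insert, Finset.mem_filter] at ht
      rcases ht with rfl | ⟨h1, _, _⟩
      · exact h1T
      · exact h1
    have hnot : 1 ∉ seg T 1 789 := by
      simp only [seg, Finset.mem_filter, not_and]
      intro _ h
      omega
    have := Finset.card_le_card hsub
    rw [Finset.card_insert_of_notMem hnot] at this
    omega

end Pool.Agent.H765R3.ChainSearch
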